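import Pool.Agent.E8helper30.MC.Stm

/-!
# Project MC, part CNT: counting sets that meet disjoint sets in at most one element
-/

set_option autoImplicit false

namespace Pool.Agent.E8helper56.MC

open scoped Classical Pointwise
open Pool.Agent.E8helper30.MC

/-- the subsets of a set of size `K` with at most one element number at most `K + 1` -/
theorem card_small {α : Type} (S : Finset α) :
    (S.powerset.filter fun T => T.card ≤ 1).card ≤ S.card + 1 := by
  have h1 : (S.powerset.filter fun T => T.card ≤ 1) ⊆
      S.powersetCard 0 ∪ S.powersetCard 1 := by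
    intro T hT
    rw [Finset.mem_filter, Finset.mem_powerset] at hT
    rw [Finset.mem_union, Finset.mem_powersetCard, Finset.mem_powersetCard]
    rcases Nat.le_one_iff_eq_zero_or_eq_one.mp hT.2 with h | h
    · exact Or.inl ⟨hT.1, h⟩
    · exact Or.inr ⟨hT.1, h⟩
  refine (Finset.card_le_card h1).trans ((Finset.card_union_le _ _).trans ?_)
  rw [Finset.card_powersetCard, Finset.card_powersetCard]
  simp
  omega

theorem t_CNT : S_CNT := by
  intro α β I B A K
  revert I
  induction B using Finset.induction_on with
  | empty =>
    intro I _ _ _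
    simp
  | insert g B hg ih =>
    intro I hI hK hD
    have hgI : A g ⊆ I := hI g (Finset.mem_insert_self g B)
    have hgK : (A g).card = K := hK g (Finset.mem_insert_self g B)
    have hdis : ∀ h ∈ B, Disjoint (A h) (A g) := fun h hh =>
      hD h (Finset.mem_insert_of_mem hh) g (Finset.mem_insert_self g B)
        (fun e => hg (e ▸ hh))
    have ih' := ih (I \ A g)
      (fun h hh => Finset.subset_sdiff.mpr ⟨hI h (Finset.mem_insert_of_mem hh), hdis h hh⟩)
      (fun h hh => hK h (Finset.mem_insert_of_mem hh))
      (fun h hh h' hh' hne => hD h (Finset.mem_insert_of_mem hh) h'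
        (Finset.mem_insert_of_mem hh') hne)
    have hcard : (I \ A g).card + K = I.card := by
      rw [← hgK]
      exact Finset.card_sdiff_add_card_eq_card hgI
    -- the injection
    have hinj : (I.powerset.filter fun C => ∀ h ∈ insert g B, (A h ∩ C).card ≤ 1).card ≤
        (((I \ A g).powerset.filter fun C => ∀ h ∈ B, (A h ∩ C).card ≤ 1) ×ˢ
          ((A g).powerset.filter fun T => T.card ≤ 1)).card := by
      refine Finset.card_le_card_of_injOn (fun C => (C \ A g, A g ∩ C)) ?_ ?_
      · intro C hC
        have hC' := Finset.mem_filter.mp (Finset.mem_coe.mp hC)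
        rw [Finset.mem_powerset] at hC'
        refine Finset.mem_coe.mpr (Finset.mem_product.mpr ⟨?_, ?_⟩)
        · refine Finset.mem_filter.mpr ⟨Finset.mem_powerset.mpr
            (Finset.sdiff_subset_sdiff hC'.1 (Finset.Subset.refl _)), ?_⟩
          intro h hh
          refine le_trans (Finset.card_le_card ?_) (hC'.2 h (Finset.mem_insert_of_mem hh))
          exact Finset.inter_subset_inter (Finset.Subset.refl _) Finset.sdiff_subset
        · exact Finset.mem_filter.mpr ⟨Finset.mem_powerset.mpr Finset.inter_subset_left,
            hC'.2 g (Finset.mem_insert_self g B)⟩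
      · intro C _ C' _ he
        have h1 : C \ A g = C' \ A g := (Prod.mk.inj he).1
        have h2 : A g ∩ C = A g ∩ C' := (Prod.mk.inj he).2
        ext x
        by_cases hx : x ∈ A g
        · have := Finset.ext_iff.mp h2 x
          simpa [hx] using this
        · have := Finset.ext_iff.mp h1 x
          simpa [hx] using this
    rw [Finset.card_product] at hinj
    have hsm : ((A g).powerset.filter fun T => T.card ≤ 1).card ≤ K + 1 := by
      rw [← hgK]
      exact card_small (A g)
    rw [Finset.card_insert_of_notMem hg]
    calc (I.powerset.filter fun C => ∀ h ∈ insert g B, (A h ∩ C).card ≤ 1).card *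
          2 ^ ((B.card + 1) * K)
        ≤ (((I \ A g).powerset.filter fun C => ∀ h ∈ B, (A h ∩ C).card ≤ 1).card * (K + 1)) *
          2 ^ ((B.card + 1) * K) :=
          Nat.mul_le_mul_right _ (hinj.trans (Nat.mul_le_mul_left _ hsm))
      _ = (((I \ A g).powerset.filter fun C => ∀ h ∈ B, (A h ∩ C).card ≤ 1).card *
          2 ^ (B.card * K)) * ((K + 1) * 2 ^ K) := by
          rw [Nat.add_mul, Nat.one_mul, pow_add]
          ring
      _ ≤ ((K + 1) ^ B.card * 2 ^ (I \ A g).card) * ((K + 1) * 2 ^ K) :=
          Nat.mul_le_mul_right _ ih'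
      _ = (K + 1) ^ (B.card + 1) * 2 ^ I.card := by
          rw [← hcard, pow_add, pow_succ]
          ring

end Pool.Agent.E8helper56.MC
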